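import Pool.Agent.J6H25.AJ.Defs

/-!
# Lower bounds for all nonzero tensor ideals
-/

set_option autoImplicit false

open CategoryTheory AlgebraicGeometry
open scoped ENNReal

universe u v w

namespace Pool.Agent.J6H25.AJ

open Module Filter Topology
open Pool.Agent.H914 Pool.Agent.H914.VarClass Pool.Agent.H914.VarClass.Obj
  Pool.Agent.H914.WeilCohomology Pool.Agent.W492.BB Pool.Agent.W550.Corr Pool.Agent.Y133.Half
  Pool.Agent.N132.IX

variable {k : Type u} [Field k] {𝒱 : VarClass k} {ops : CycleOps 𝒱}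
  {W : WeilCohomology.{u, v} ops} {X Y Z : 𝒱.Obj} {C : CycleTheory.{u, v, w} W}

lemma finite_num (C : CycleTheory.{u, v, w} W) (X : 𝒱.Obj) :
    Module.Finite W.K (C.A X ⧸ C.num X) := by
  have hle : LinearMap.ker (C.cl X).toLinearMap ≤ C.num X := by
    intro x hx y
    have h0 : C.cl X x = 0 := hx
    rw [map_mul, h0, zero_mul, map_zero]
  have h1 : Module.Finite W.K (C.A X ⧸ LinearMap.ker (C.cl X).toLinearMap) :=
    Module.Finite.equiv (C.cl X).toLinearMap.quotKerEquivRange.symm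
  exact Module.Finite.of_surjective (Submodule.factor hle) (Submodule.factor_surjective hle)

/-- The classes on a factor, multiplied by a class on the other factor in the ideal. -/
noncomputable def amp (J : TensorIdeal C) {z : C.A Y} (hz : z ∈ J.J Y) (Z : 𝒱.Obj) :
    C.A Z →ₗ[W.K] J.J (Y.prod Z) where
  toFun w := ⟨C.pull (snd Y Z) w * C.pull (fst Y Z) z, J.mul_mem _ (J.pull_mem _ hz)⟩
  map_add' a b := Subtype.ext (by
    change C.pull (snd Y Z) (a + b) * _ = _ * _ + _ * _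
    rw [map_add, add_mul])
  map_smul' c a := Subtype.ext (by
    change C.pull (snd Y Z) (c • a) * _ = c • (_ * _)
    rw [map_smul, smul_mul_assoc])

lemma amp_ker (J : TensorIdeal C) {z : C.A Y} (hz : z ∈ J.J Y) (h0 : z ≠ 0) (Z : 𝒱.Obj) :
    LinearMap.ker (amp J hz Z) ≤ C.num Z := by
  intro w hw y
  have h1 : C.pull (snd Y Z) w * C.pull (fst Y Z) z = 0 := congrArg Subtype.val hw
  have h2 : C.push (fst Y Z) (C.pull (fst Y Z) z * C.pull (snd Y Z) (w * y)) = 0 := by
    rw [map_mul (C.pull (snd Y Z)), ← mul_assoc, C.mul_comm (C.pull (fst Y Z) z), h1, zero_mul,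
      map_zero]
  rw [TheoryData.proj_left, push_fst_degree, mul_smul_comm, mul_one] at h2
  exact (smul_eq_zero.1 h2).resolve_right h0

/-- **Amplification.** -/
theorem amp_le (J : TensorIdeal C) (h : J.J Y ≠ ⊥) (Z : 𝒱.Obj) :
    (C.numRank Z : ℕ∞) ≤ J.dim (Y.prod Z) := by
  obtain ⟨z, hz, h0⟩ := (Submodule.ne_bot_iff _).1 h
  have hfin := finite_num C Z
  have h1 : Module.rank W.K (C.A Z ⧸ C.num Z) ≤ Module.rank W.K (J.J (Y.prod Z)) := by
    have h2 : Module.rank W.K (C.A Z ⧸ C.num Z) ≤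
        Module.rank W.K (C.A Z ⧸ LinearMap.ker (amp J hz Z)) :=
      LinearMap.rank_le_of_surjective (Submodule.factor (amp_ker J hz h0 Z))
        (Submodule.factor_surjective _)
    have h3 : Module.rank W.K (C.A Z ⧸ LinearMap.ker (amp J hz Z)) =
        Module.rank W.K (LinearMap.range (amp J hz Z)) :=
      (amp J hz Z).quotKerEquivRange.rank_eq
    exact (h2.trans h3.le).trans (Submodule.rank_le _)
  have h4 : Cardinal.toENat (Module.rank W.K (C.A Z ⧸ C.num Z)) ≤ J.dim (Y.prod Z) :=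
    OrderHomClass.mono Cardinal.toENat h1
  have h5 : Cardinal.toENat (Module.rank W.K (C.A Z ⧸ C.num Z)) = (C.numRank Z : ℕ∞) := by
    rw [← finrank_eq_rank, Cardinal.toENat_nat]
    rfl
  rwa [h5] at h4

/-- invariance under isomorphisms -/
lemma dim_iso (J : TensorIdeal C) (θ : Y ≅ Z) : J.dim Y = J.dim Z := by
  have e : J.J Z ≃ₗ[W.K] J.J Y :=
    LinearEquiv.ofLinearMap
      ((C.pull θ.hom).toLinearMap.restrict (p := J.J Z) (q := J.J Y) fun x hx => J.pull_mem _ hx)
      ((C.pull θ.inv).toLinearMap.restrict (p := J.J Y) (q := J.J Z) fun x hx => J.pull_mem _ hx)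
      (by
        ext x
        change C.pull θ.hom (C.pull θ.inv x) = x
        rw [← TheoryData.pull_comp, θ.hom_inv_id, TheoryData.pull_id])
      (by
        ext x
        change C.pull θ.inv (C.pull θ.hom x) = x
        rw [← TheoryData.pull_comp, θ.inv_hom_id, TheoryData.pull_id])
  rw [TensorIdeal.dim, TensorIdeal.dim, e.rank_eq]

lemma amp_pw (J : TensorIdeal C) {m : ℕ} (h : J.J (pw X m) ≠ ⊥) (q : ℕ) :
    (C.numRank (pw X q) : ℕ∞) ≤ J.dim (pw X (m + q + 1)) := by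
  rw [← dim_iso J (pwAdd X m q)]
  exact amp_le J h _

/-- The numerical rank of a factor. -/
lemma numRank_fst_le (C : CycleTheory.{u, v, w} W) (Y Z : 𝒱.Obj) :
    C.numRank Y ≤ C.numRank (Y.prod Z) := by
  have hfin := finite_num C (Y.prod Z)
  have hfin' := finite_num C Y
  let φ : C.A Y →ₗ[W.K] (C.A (Y.prod Z) ⧸ C.num (Y.prod Z)) :=
    (C.num (Y.prod Z)).mkQ ∘ₗ (C.pull (fst Y Z)).toLinearMap
  obtain ⟨p, hp⟩ := C.exists_point Z
  have hker : LinearMap.ker φ ≤ C.num Y := by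
    intro w hw
    have h1 : C.pull (fst Y Z) w ∈ C.num (Y.prod Z) := by
      have h2 : (C.num (Y.prod Z)).mkQ (C.pull (fst Y Z) w) = 0 := hw
      rwa [Submodule.mkQ_apply, Submodule.Quotient.mk_eq_zero] at h2
    have h3 : CycleTheory.NumTriv (C.push (fst Y Z) (C.pull (fst Y Z) w * C.pull (snd Y Z) p)) :=
      numTriv_push _ (numTriv_mul h1 _)
    rw [TheoryData.proj_left, push_fst_degree, hp, one_smul, mul_one] at h3
    exact h3
  have h1 : Module.Finite W.K (C.A Y ⧸ LinearMap.ker φ) :=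
    Module.Finite.equiv φ.quotKerEquivRange.symm
  have h2 : finrank W.K (C.A Y ⧸ C.num Y) ≤ finrank W.K (C.A Y ⧸ LinearMap.ker φ) :=
    LinearMap.finrank_le_finrank_of_surjective (f := Submodule.factor hker)
      (Submodule.factor_surjective hker)
  rw [φ.quotKerEquivRange.finrank_eq] at h2
  exact h2.trans (Submodule.finrank_le _)

lemma numRank_mono (C : CycleTheory.{u, v, w} W) (X : 𝒱.Obj) :
    Monotone fun n => C.numRank (pw X n) :=
  monotone_nat_of_le_succ fun n => numRank_fst_le C (pw X n) X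

/-- The ranks modulo numerical equivalence grow at most exponentially, step by step. -/
lemma numRank_add_le (C : CycleTheory.{u, v, w} W) (X : 𝒱.Obj) (m : ℕ) : ∃ B : ℕ, ∀ q ≥ 1,
    C.numRank (pw X (m + q + 1)) ≤ B * C.numRank (pw X q) := by
  obtain ⟨lam, hlam, hlam1⟩ := exists_lam C X
  have h1 : (1 : W.H X) ≠ 0 := one_ne_zero_of (ne_zero_of_tr hlam1)
  have hb : 1 ≤ finrank W.K (W.H X) := by
    have : Nontrivial (W.H X) := ⟨⟨1, 0, h1⟩⟩
    exact Module.finrank_pos
  refine ⟨finrank W.K (W.H X) ^ (m + 2), fun q hq => ?_⟩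
  obtain ⟨l, s, hs, hq'⟩ : ∃ l s : ℕ, s ≤ 1 ∧ q = l + l + 1 + s := ⟨(q - 1) / 2, (q - 1) % 2, by
    omega, by omega⟩
  have h2 := N803.IXT.a_le_dd (X := X) C.S (m + s) l
  have h3 : m + s + (l + l + 1) + 1 = m + q + 1 := by omega
  rw [h3, ← numRank_eq, N803.IXT.dd] at h2
  refine h2.trans ?_
  have h4 : C.S.al X l ≤ C.numRank (pw X q) := by
    have h5 : C.S.al X l = C.numRank (pw X (l + l + 1)) := by
      rw [numRank_eq, Sys.al]
      exact C.S.a_iso (pwAdd X l l)
    rw [h5]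
    exact numRank_mono C X (by omega)
  exact Nat.mul_le_mul (Nat.pow_le_pow_right hb (by omega)) h4

/-- **Nonzero ideals are not small.** -/
theorem not_small (J : TensorIdeal C) {m : ℕ} (h : J.J (pw X m) ≠ ⊥) : ∃ c : ℕ,
    ∀ᶠ n in atTop, (C.numRank (pw X n) : ℕ∞) ≤ c * J.dim (pw X n) := by
  obtain ⟨B, hB⟩ := numRank_add_le C X m
  refine ⟨B, eventually_atTop.2 ⟨m + 2, fun n hn => ?_⟩⟩
  obtain ⟨q, hq, rfl⟩ : ∃ q ≥ 1, n = m + q + 1 := ⟨n - m - 1, by omega, by omega⟩
  have h1 : (C.numRank (pw X (m + q + 1)) : ℕ∞) ≤ (B : ℕ∞) * (C.numRank (pw X q) : ℕ∞) := by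
    exact_mod_cast hB q hq
  exact h1.trans (mul_le_mul_right (amp_pw J h q) _)

/-- varieties dominated by powers of `X` -/
lemma eq_bot_of_dominated (J : TensorIdeal C) (h : ∀ n, J.J (pw X n) = ⊥)
    (hY : Dominates C X Y) : J.J Y = ⊥ := by
  obtain ⟨n, f, a, ha⟩ := hY
  rw [eq_bot_iff]
  intro y hy
  have h1 : C.push f (a * C.pull f y) = y := by
    rw [TheoryData.proj_right, ha, one_mul]
  have h2 : a * C.pull f y ∈ J.J (pw X n) := J.mul_mem _ (J.pull_mem _ hy)
  rw [h n, Submodule.mem_bot] at h2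
  rw [Submodule.mem_bot, ← h1, h2, map_zero]

lemma dominates_pw (C : CycleTheory.{u, v, w} W) (X : 𝒱.Obj) (n : ℕ) :
    Dominates C X (pw X n) := ⟨n, 𝟙 _, 1, by
  rw [TheoryData.push_id]⟩

lemma all_iff (J : TensorIdeal C) : (∀ n, J.J (pw X n) = ⊥) ↔
    ∀ Y, Dominates C X Y → J.J Y = ⊥ :=
  ⟨fun h _ hY => eq_bot_of_dominated J h hY, fun h n => h _ (dominates_pw C X n)⟩

lemma stab_ideal (J : TensorIdeal C) (X : 𝒱.Obj) : Stab C X fun n => J.J (pw X n) := by
  intro m n Γ y hy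
  rw [TheoryData.act_apply]
  exact J.push_mem _ (J.mul_mem _ (J.pull_mem _ hy))

end Pool.Agent.J6H25.AJ
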