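import Pool.Agent.N132.IX.Main

/-!
# Tensor ideals in a theory of cycles: definitions
-/

set_option autoImplicit false

open CategoryTheory AlgebraicGeometry
open scoped ENNReal

universe u v w

namespace Pool.Agent.J6H25.AJ

open Module
open Pool.Agent.H914 Pool.Agent.H914.VarClass Pool.Agent.H914.VarClass.Obj
  Pool.Agent.H914.WeilCohomology Pool.Agent.W492.BB Pool.Agent.W550.Corr Pool.Agent.Y133.Half
  Pool.Agent.N132.IX

variable {k : Type u} [Field k] {𝒱 : VarClass k} {ops : CycleOps 𝒱}
  {W : WeilCohomology.{u, v} ops}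

/-- A tensor ideal `J` of numerically trivial classes: subspaces `J(Y)` of `A(Y)`, for all
varieties `Y` of the class, consisting of numerically trivial classes and stable under
pull-backs, push-forwards and products with arbitrary classes. Example: `A` the Chow groups with
rational coefficients of the smooth projective varieties over a number field, and `J(Y)` the kernel
of the `p`-adic étale Abel-Jacobi map of `Y` (in all codimensions). -/
structure TensorIdeal (C : CycleTheory.{u, v, w} W) where
  /-- the subspace `J(Y)` -/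
  J : ∀ Y : 𝒱.Obj, Submodule W.K (C.A Y)
  pull_mem : ∀ {Y Z : 𝒱.Obj} (f : Y ⟶ Z) {z : C.A Z}, z ∈ J Z → C.pull f z ∈ J Y
  push_mem : ∀ {Y Z : 𝒱.Obj} (f : Y ⟶ Z) {y : C.A Y}, y ∈ J Y → C.push f y ∈ J Z
  mul_mem : ∀ {Y : 𝒱.Obj} (x : C.A Y) {y : C.A Y}, y ∈ J Y → x * y ∈ J Y
  numTriv : ∀ {Y : 𝒱.Obj} {y : C.A Y}, y ∈ J Y → CycleTheory.NumTriv y

variable {C : CycleTheory.{u, v, w} W}

namespace TensorIdeal

/-- The dimension of `J(Y)`, a natural number or infinity. -/
noncomputable def dim (J : TensorIdeal C) (Y : 𝒱.Obj) : ℕ∞ :=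
  Cardinal.toENat (Module.rank W.K (J.J Y))

end TensorIdeal

variable (C) in
/-- `Y` is dominated by a power of `X`: there are a morphism `f` from a power of `X` to `Y` and a
class `a` with `f_* a = 1` (any `Y` with a surjective morphism from a power of `X`). -/
def Dominates (X Y : 𝒱.Obj) : Prop :=
  ∃ (n : ℕ) (f : pw X n ⟶ Y) (a : C.A (pw X n)), C.push f a = 1

end Pool.Agent.J6H25.AJ
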