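import Pool.Agent.J6H25.AJ.Step2

/-!
# The growth of stable families of finite-dimensional subspaces
-/

set_option autoImplicit false

open CategoryTheory AlgebraicGeometry
open scoped ENNReal

universe u v w

namespace Pool.Agent.J6H25.AJ

open Module Filter Topology
open Pool.Agent.H914 Pool.Agent.H914.VarClass Pool.Agent.H914.VarClass.Obj
  Pool.Agent.H914.WeilCohomology Pool.Agent.W492.BB Pool.Agent.W550.Corr Pool.Agent.Y133.Half
  Pool.Agent.N132.IX

variable {k : Type u} [Field k] {𝒱 : VarClass k} {ops : CycleOps 𝒱}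
  {W : WeilCohomology.{u, v} ops} {X Y Z : 𝒱.Obj} {C : CycleTheory.{u, v, w} W}

/-- Classes obtained from the family `G` by `j` numerically trivial correspondences. -/
inductive CompG (G : ∀ n, Submodule W.K (C.A (pw X n))) : ℕ → ∀ n, C.A (pw X n) → Prop
  | zero (n : ℕ) (y : C.A (pw X n)) (hy : y ∈ G n) : CompG G 0 n y
  | succ (j m n : ℕ) (Γ : C.A ((pw X m).prod (pw X n))) (hΓ : CycleTheory.NumTriv Γ)
      (y : C.A (pw X m)) (hy : CompG G j m y) : CompG G (j + 1) n (C.act Γ y)

/-- The filtration of a stable family by numerically trivial correspondences. -/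
noncomputable def filG (G : ∀ n, Submodule W.K (C.A (pw X n))) (j n : ℕ) :
    Submodule W.K (C.A (pw X n)) := Submodule.span W.K {y | CompG G j n y}

variable {G : ∀ n, Submodule W.K (C.A (pw X n))}

lemma compG_mem (hG : Stab C X G) {j n : ℕ} {y : C.A (pw X n)} (h : CompG G j n y) :
    y ∈ G n := by
  induction h with
  | zero n y hy => exact hy
  | succ j m n Γ hΓ y hy ih => exact hG m n Γ y ih

lemma compG_composite {j n : ℕ} {y : C.A (pw X n)} (h : CompG G j n y) :
    C.Composite X j n y := by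
  induction h with
  | zero n y hy => exact .zero n y
  | succ j m n Γ hΓ y hy ih => exact .succ j m n Γ hΓ y ih

lemma filG_zero : filG G 0 = G := by
  funext n
  apply le_antisymm
  · refine Submodule.span_le.2 fun y hy => ?_
    cases hy with
    | zero _ _ h => exact h
  · exact fun y hy => Submodule.subset_span (.zero n y hy)

lemma stab_filG (hG : Stab C X G) (j : ℕ) : Stab C X (filG G j) := by
  intro m n Γ y hy
  refine Submodule.span_induction (p := fun y _ => C.act Γ y ∈ filG G j n) ?_ ?_ ?_ ?_ hy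
  · intro y hy'
    cases hy' with
    | zero _ _ h => exact Submodule.subset_span (.zero _ _ (hG m n Γ y h))
    | succ j l m Δ hΔ z hz =>
      rw [← TheoryData.act_comp]
      exact Submodule.subset_span (.succ _ _ _ _ (numTriv_comp hΔ Γ) _ hz)
  · rw [TheoryData.act_map_zero]; exact Submodule.zero_mem _
  · intro a b _ _ ha hb
    rw [act_map_add]; exact Submodule.add_mem _ ha hb
  · intro c a _ ha
    rw [act_map_smul]; exact Submodule.smul_mem _ _ ha

lemma filG_act {j m n : ℕ} {Γ : C.A ((pw X m).prod (pw X n))} (hΓ : CycleTheory.NumTriv Γ)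
    {y : C.A (pw X m)} (hy : y ∈ filG G j m) : C.act Γ y ∈ filG G (j + 1) n := by
  refine Submodule.span_induction (p := fun y _ => C.act Γ y ∈ filG G (j + 1) n) ?_ ?_ ?_ ?_ hy
  · intro y hy
    exact Submodule.subset_span (.succ _ _ _ _ hΓ _ hy)
  · rw [TheoryData.act_map_zero]; exact Submodule.zero_mem _
  · intro a b _ _ ha hb
    rw [act_map_add]; exact Submodule.add_mem _ ha hb
  · intro c a _ ha
    rw [act_map_smul]; exact Submodule.smul_mem _ _ ha

lemma compG_pred (hG : Stab C X G) {j n : ℕ} {y : C.A (pw X n)} (h : CompG G (j + 1) n y) :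
    CompG G j n y := by
  induction j generalizing n with
  | zero => exact .zero _ _ (compG_mem hG h)
  | succ j ih =>
    cases h with
    | succ _ m _ Γ hΓ y hy => exact .succ _ _ _ _ hΓ _ (ih hy)

lemma filG_succ_le (hG : Stab C X G) (j n : ℕ) : filG G (j + 1) n ≤ filG G j n :=
  Submodule.span_mono fun _ h => compG_pred hG h

lemma filG_le (hG : Stab C X G) (j n : ℕ) : filG G j n ≤ G n :=
  Submodule.span_le.2 fun _ h => compG_mem hG h

lemma filG_le_fil (j n : ℕ) : filG G j n ≤ C.fil X j n :=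
  Submodule.span_mono fun _ h => compG_composite h

lemma filG_stationary {j : ℕ} (hG : Stab C X G) (h : filG G (j + 1) = filG G j) :
    filG G (j + 1 + 1) = filG G (j + 1) := by
  funext n
  apply le_antisymm (filG_succ_le hG _ _)
  refine Submodule.span_le.2 fun x hx => ?_
  cases hx with
  | succ _ m _ Γ hΓ y hy =>
    apply filG_act hΓ
    rw [h]
    exact Submodule.subset_span hy

/-- The conditions on the numerical classes. -/
structure Base (C : CycleTheory.{u, v, w} W) (X : 𝒱.Obj) : Prop where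
  num : ∀ n, C.S.Num (pw X n) = ⊥
  growth : Growth C.S X
  pos : ∀ n, 0 < C.S.a (pw X n)

lemma cl_zero (hB : Base C X) {m n : ℕ} {Γ : C.A ((pw X m).prod (pw X n))}
    (h : CycleTheory.NumTriv Γ) : C.cl _ Γ = 0 := by
  have h3 := numTriv_iff.1 h
  have h4 : C.S.Num ((pw X m).prod (pw X n)) = ⊥ := by
    rw [eq_bot_iff]
    intro c hc
    have h5 := Sys.Num.map (pwAdd X m n).inv hc
    rw [hB.num, Submodule.mem_bot] at h5
    rw [Submodule.mem_bot]
    exact map_inj_of_iso (pwAdd X m n).symm (h5.trans (map_zero _).symm)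
  rw [h4, Submodule.mem_bot] at h3
  exact h3

lemma rlim_boundG (hB : Base C X) {G' U G : ∀ n, Submodule W.K (C.A (pw X n))}
    (hfin : ∀ n, Module.Finite W.K (G n)) (hle : ∀ n, U n ≤ G n)
    {N N₀ : ℕ} (hU : RLim C X G' U N)
    (hf : ∃ᶠ n in atTop, finrank W.K (G n) < N₀ * C.S.a (pw X n) + finrank W.K (G' n)) :
    N ≤ N₀ := by
  by_contra hlt
  push Not at hlt
  have h1 : (N₀ : ℝ) < N := by exact_mod_cast hlt
  have h2 := hU.eventually (lt_mem_nhds h1)
  obtain ⟨n, hn1, hn2⟩ := (hf.and_eventually h2).exists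
  have hp : (0 : ℝ) < C.S.a (pw X n) := by exact_mod_cast hB.pos n
  rw [lt_div_iff₀ hp] at hn2
  have := hfin n
  have h3 := Submodule.finrank_mono (hle n)
  have h4 : ((N₀ * C.S.a (pw X n) + finrank W.K (G' n) : ℕ) : ℝ) < (finrank W.K (U n) : ℕ) := by
    push_cast
    linarith
  have h5 : N₀ * C.S.a (pw X n) + finrank W.K (G' n) < finrank W.K (U n) := by exact_mod_cast h4
  omega

/-- Iteration of the composition step, relative form. -/
lemma iterate_relG (hB : Base C X) {G' G : ∀ n, Submodule W.K (C.A (pw X n))}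
    (hfin : ∀ n, Module.Finite W.K (G n))
    (hG' : Stab C X G') (hG : Stab C X G) (hle : ∀ n, G' n ≤ G n)
    (h0 : ∀ (m n : ℕ) (Γ : C.A ((pw X m).prod (pw X n))), C.cl _ Γ = 0 → ∀ y ∈ G m,
      C.act Γ y ∈ G' n) :
    (∃ N, RLim C X G' G N ∧ (N = 0 → G' = G)) ∨
      ∀ N : ℕ, ∀ᶠ n in atTop, N * C.S.a (pw X n) + finrank W.K (G' n) ≤ finrank W.K (G n) := by
  classical
  by_cases hI : ∀ N : ℕ, ∀ᶠ n in atTop,
      N * C.S.a (pw X n) + finrank W.K (G' n) ≤ finrank W.K (G n)
  · exact Or.inr hI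
  left
  push Not at hI
  obtain ⟨N₀, hN₀⟩ := hI
  let R : ℕ → Prop := fun N => ∃ U : ∀ n, Submodule W.K (C.A (pw X n)), Stab C X U ∧
    (∀ n, G' n ≤ U n) ∧ (∀ n, U n ≤ G n) ∧ RLim C X G' U N
  have hR : ∀ N, R N → N ≤ N₀ := fun N ⟨U, _, _, hU, hL⟩ => rlim_boundG hB hfin hU hL hN₀
  have h00 : RLim C X G' G' 0 := by
    rw [RLim]
    refine tendsto_const_nhds.congr fun n => ?_
    rw [sub_self, zero_div, Nat.cast_zero]
  have h1 : R 0 := ⟨G', hG', fun _ => le_rfl, hle, h00⟩
  have stepR : ∀ {N : ℕ} {U : ∀ n, Submodule W.K (C.A (pw X n))}, Stab C X U →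
      (∀ n, G' n ≤ U n) → (∀ n, U n ≤ G n) → RLim C X G' U N → U ≠ G → ∃ N₁, N < N₁ ∧ R N₁ := by
    intro N U hU hU1 hU2 hL hne
    have heq : ¬ ∀ n, ∀ y ∈ G n, y ∈ U n := fun h =>
      hne (funext fun n => le_antisymm (hU2 n) (h n))
    push Not at heq
    obtain ⟨m, y, hy, hy'⟩ := heq
    obtain ⟨g, hg, hgg, hg0, U', hS, hU'1, hU'2, hdim⟩ := stepG C X hB.num hfin hU hG hU2
      (fun m n Γ hΓ y hy => hU1 n (h0 m n Γ hΓ y hy)) hy hy'
    have h2 := tendsto_r C.S X hB.growth m hg hgg
    have h3 : RLim C X G' U' (N + finrank W.K (LinearMap.range g)) := by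
      have h4 := hL.add h2
      rw [RLim]
      push_cast
      refine h4.congr fun n => ?_
      rw [hdim n]
      push_cast
      rw [← add_div]
      congr 1
      ring
    have h6 := rank_pos hg0
    exact ⟨_, by omega, U', hS, fun n => (hU1 n).trans (hU'1 n), hU'2, h3⟩
  obtain ⟨U, hU, hU1, hU2, hL⟩ := Nat.findGreatest_spec (hR _ h1) h1
  set N := Nat.findGreatest R N₀ with hN
  by_cases heq : U = G
  · refine ⟨N, heq ▸ hL, fun hN0 => ?_⟩
    by_contra hne
    obtain ⟨N₁, hN₁, hRN⟩ := stepR hG' (fun _ => le_rfl) hle h00 hne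
    exact Nat.findGreatest_is_greatest (P := R) (n := N₀) (show N < N₁ by omega) (hR _ hRN) hRN
  · exfalso
    obtain ⟨N₁, hN₁, hRN⟩ := stepR hU hU1 hU2 hL heq
    exact Nat.findGreatest_is_greatest (P := R) (n := N₀) hN₁ (hR _ hRN) hRN

/-- No nonzero class of the family is fixed by a homologically trivial correspondence. -/
def NoFixG (G : ∀ n, Submodule W.K (C.A (pw X n))) : Prop :=
  ∀ (m : ℕ) (Γ : C.A ((pw X m).prod (pw X m))) (y : C.A (pw X m)), y ∈ G m → C.cl _ Γ = 0 →
    C.act Γ y = y → y = 0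

lemma cyc_le (hG : Stab C X G) {m : ℕ} {y : C.A (pw X m)} (hy : y ∈ G m) (n : ℕ) :
    cyc C y n ≤ G n := by
  rintro _ ⟨Γ, rfl⟩
  exact hG m n Γ y hy

/-- One step of the chain. -/
lemma cyc_stepG (hB : Base C X) (hG : Stab C X G) (hfin : ∀ n, Module.Finite W.K (G n))
    (hf : NoFixG G) {m : ℕ} {y : C.A (pw X m)} (hyG : y ∈ G m) (hy : y ≠ 0) {ε : ℝ}
    (hε : 0 < ε) : ∀ᶠ n in atTop, (1 - ε) * C.S.a (pw X n) + finrank W.K (ncyc C y n) ≤
      finrank W.K (cyc C y n) := by
  have hcf : ∀ n, Module.Finite W.K (cyc C y n) := fun n => by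
    have := hfin n
    exact Submodule.finiteDimensional_of_le (cyc_le hG hyG n)
  obtain ⟨g, hg, hgg, hg0, U, -, -, hU, hdim⟩ := stepG C X hB.num hcf (stab_ncyc y)
    (stab_cyc y) (ncyc_le y) (by
      rintro l n Γ hΓ _ ⟨Δ, rfl⟩
      exact ⟨C.comp Δ Γ, cl_comp_zero' Δ hΓ, TheoryData.act_comp _ _ _ _⟩)
    (m := m) (y := y) ⟨dg C.toTheoryData _, act_dg _ _⟩ (by
      rintro ⟨Γ, hΓ, h⟩
      exact hy (hf m Γ y hyG hΓ h))
  have h1 := tendsto_r C.S X hB.growth m hg hgg
  have h2 : (1 : ℝ) ≤ finrank W.K (LinearMap.range g) := by exact_mod_cast rank_pos hg0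
  filter_upwards [h1.eventually (lt_mem_nhds (show 1 - ε < _ by linarith))] with n hn
  have hp : (0 : ℝ) < C.S.a (pw X n) := by exact_mod_cast hB.pos n
  rw [lt_div_iff₀ hp] at hn
  have := hcf n
  have h3 := Submodule.finrank_mono (hU n)
  have h4 : (finrank W.K (ncyc C y n) : ℝ) + C.S.r (pw X m) g (pw X n) ≤
      finrank W.K (cyc C y n) := by
    rw [hdim n] at h3
    exact_mod_cast h3
  linarith

lemma chain_auxG (hB : Base C X) (hG : Stab C X G) (hfin : ∀ n, Module.Finite W.K (G n))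
    (hf : NoFixG G) {d m : ℕ} {y : C.A (pw X m)}
    (h : CompG G d m y) : y ≠ 0 → ∀ ε : ℝ, 0 < ε → ∀ᶠ n in atTop,
      ((d : ℝ) - ε) * C.S.a (pw X n) + finrank W.K (cyc C y n) ≤ finrank W.K (G n) := by
  induction h with
  | zero m y hy =>
    intro _ ε hε
    refine Eventually.of_forall fun n => ?_
    have := hfin n
    have h1 : (finrank W.K (cyc C y n) : ℝ) ≤ finrank W.K (G n) := by
      exact_mod_cast Submodule.finrank_mono (cyc_le hG hy n)
    have h2 : (0 : ℝ) ≤ C.S.a (pw X n) := Nat.cast_nonneg _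
    push_cast
    nlinarith
  | succ j l m Γ hΓ y hy ih =>
    intro hy0 ε hε
    have hy1 : y ≠ 0 := by
      rintro rfl
      exact hy0 (TheoryData.act_map_zero _ _)
    have hyG : y ∈ G l := compG_mem hG hy
    have hε2 : 0 < ε / 2 := by positivity
    filter_upwards [ih hy1 (ε / 2) hε2, cyc_stepG hB hG hfin hf hyG hy1 hε2] with n h1 h2
    have hΓ0 : C.cl _ Γ = 0 := cl_zero hB hΓ
    have h3 : cyc C (C.act Γ y) n ≤ ncyc C y n := by
      rintro _ ⟨Δ, rfl⟩
      exact ⟨C.comp Γ Δ, cl_comp_zero hΓ0 Δ, TheoryData.act_comp _ _ _ _⟩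
    have := hfin n
    have h5 : Module.Finite W.K (ncyc C y n) :=
      Submodule.finiteDimensional_of_le ((ncyc_le y n).trans (cyc_le hG hyG n))
    have h4 : (finrank W.K (cyc C (C.act Γ y) n) : ℝ) ≤ finrank W.K (ncyc C y n) := by
      exact_mod_cast Submodule.finrank_mono h3
    push_cast
    linarith

/-- **Lower bound.** A nonzero class obtained by `d` homologically trivial correspondences. -/
lemma chain_lowerG (hB : Base C X) (hG : Stab C X G) (hfin : ∀ n, Module.Finite W.K (G n))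
    (hf : NoFixG G) {d m : ℕ} {y : C.A (pw X m)}
    (h : CompG G d m y) (hy : y ≠ 0) {ε : ℝ} (hε : 0 < ε) : ∀ᶠ n in atTop,
      ((d : ℝ) + 1 - ε) * C.S.a (pw X n) ≤ finrank W.K (G n) := by
  have hε2 : 0 < ε / 2 := by positivity
  filter_upwards [chain_auxG hB hG hfin hf h hy (ε / 2) hε2,
    cyc_stepG hB hG hfin hf (compG_mem hG h) hy hε2] with n h1 h2
  have h3 : (0 : ℝ) ≤ finrank W.K (ncyc C y n) := Nat.cast_nonneg _
  linarith

/-- **The law for stable families.** -/
theorem lawG (hB : Base C X) (hG : Stab C X G) (hfin : ∀ n, Module.Finite W.K (G n))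
    (hf : NoFixG G) : (∃ i : ℕ, Lim C X G i ∧ (i = 0 → ∀ n, G n = ⊥)) ∨ Inf C X G := by
  by_cases hI : Inf C X G
  · exact Or.inr hI
  left
  rw [Inf] at hI
  push Not at hI
  obtain ⟨N₀, hN₀⟩ := hI
  have hfj : ∀ j n, Module.Finite W.K (filG G j n) := fun j n => by
    have := hfin n
    exact Submodule.finiteDimensional_of_le (filG_le hG j n)
  have key : ∀ j, ∃ N, RLim C X (filG G (j + 1)) (filG G j) N ∧
      (N = 0 → filG G (j + 1) = filG G j) := by
    intro j
    rcases iterate_relG hB (hfj j) (stab_filG hG (j + 1)) (stab_filG hG j) (filG_succ_le hG j)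
      (fun m n Γ hΓ y hy => filG_act (numTriv_of_cl hΓ) hy) with h | h
    · exact h
    · exfalso
      obtain ⟨n, hn1, hn2⟩ := (hN₀.and_eventually (h N₀)).exists
      have := hfin n
      have h3 := Submodule.finrank_mono (filG_le hG j n)
      omega
  choose c hc hc0 using key
  have h1 : ∀ e : ℕ, Tendsto (fun n => ((finrank W.K (filG G 0 n) : ℝ) -
      finrank W.K (filG G e n)) / C.S.a (pw X n)) atTop
        (𝓝 ((∑ j ∈ Finset.range e, c j : ℕ) : ℝ)) := by
    intro e
    induction e with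
    | zero =>
      refine tendsto_const_nhds.congr fun n => ?_
      simp
    | succ e ih =>
      rw [Finset.sum_range_succ, Nat.cast_add]
      refine (ih.add (hc e)).congr fun n => ?_
      rw [← add_div]
      congr 1
      ring
  have hbd : ∀ e, ∑ j ∈ Finset.range e, c j ≤ N₀ := by
    intro e
    refine rlim_boundG (G' := filG G e) (U := filG G 0) (G := G) hB hfin
      (fun n => filG_le hG 0 n) (h1 e) ?_
    refine hN₀.mono fun n hn => ?_
    omega
  obtain ⟨j, hj⟩ : ∃ j, c j = 0 := by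
    by_contra hcon
    push Not at hcon
    have h2 : ∑ j ∈ Finset.range (N₀ + 1), 1 ≤ ∑ j ∈ Finset.range (N₀ + 1), c j :=
      Finset.sum_le_sum fun j _ => Nat.one_le_iff_ne_zero.2 (hcon j)
    rw [Finset.sum_const, Finset.card_range, smul_eq_mul, mul_one] at h2
    have := hbd (N₀ + 1)
    omega
  have hst : ∀ e, filG G (j + e + 1) = filG G (j + e) := by
    intro e
    induction e with
    | zero => exact hc0 j hj
    | succ e ih => exact filG_stationary hG ih
  have hst2 : ∀ e, filG G (j + e) = filG G j := by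
    intro e
    induction e with
    | zero => rfl
    | succ e ih => exact (hst e).trans ih
  have hbot : ∀ n, filG G j n = ⊥ := by
    intro n
    by_contra hne
    rw [← hst2 (N₀ + 1)] at hne
    obtain ⟨y, hy, hy0⟩ : ∃ y, CompG G (j + (N₀ + 1)) n y ∧ y ≠ 0 := by
      by_contra hcon
      push Not at hcon
      apply hne
      rw [filG, Submodule.span_eq_bot]
      exact fun y hy => hcon y hy
    have h2 := chain_lowerG hB hG hfin hf hy hy0 one_pos
    obtain ⟨q, hq1, hq2⟩ := (hN₀.and_eventually h2).exists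
    have h3 : (((j + (N₀ + 1) : ℕ) : ℝ) + 1 - 1) = ((j + (N₀ + 1) : ℕ) : ℝ) := by ring
    rw [h3] at hq2
    have h4 : (j + (N₀ + 1)) * C.S.a (pw X q) ≤ finrank W.K (G q) := by exact_mod_cast hq2
    have h5 := hB.pos q
    nlinarith
  refine ⟨∑ i ∈ Finset.range j, c i, ?_, fun h n => ?_⟩
  · refine (h1 j).congr fun n => ?_
    rw [hbot n, finrank_bot, filG_zero]
    simp
  · have h2 : ∀ e ≤ j, filG G e = G := by
      intro e
      induction e with
      | zero => intro _; exact filG_zero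
      | succ e ih =>
        intro he
        rw [hc0 e (Finset.sum_eq_zero_iff.1 h e (Finset.mem_range.2 (by omega))), ih (by omega)]
    rw [← hbot n, h2 j le_rfl]

end Pool.Agent.J6H25.AJ
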