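import Pool.Agent.J6H25.AJ.Amp
import Pool.Agent.J6H25.AJ.Law

/-!
# Classes in an ideal which are fixed by homologically trivial correspondences
-/

set_option autoImplicit false

open CategoryTheory AlgebraicGeometry

universe u v w

namespace Pool.Agent.J6H25.AJ

open Module Filter Topology
open Pool.Agent.H914 Pool.Agent.H914.VarClass Pool.Agent.H914.VarClass.Obj
  Pool.Agent.H914.WeilCohomology Pool.Agent.W492.BB Pool.Agent.W550.Corr
  Pool.Agent.N132.IX Pool.Agent.N765.IX
open Pool.Agent.Y133.Half hiding comp_lift lift_eta rho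

variable {k : Type u} [Field k] {𝒱 : VarClass k} {ops : CycleOps 𝒱}
  {W : WeilCohomology.{u, v} ops} {X Y Z P Q V : 𝒱.Obj} {C : CycleTheory.{u, v, w} W}

lemma comp_mem_left (J : TensorIdeal C) {c : C.A (V.prod Q)} (hc : c ∈ J.J (V.prod Q))
    (T : C.A (Q.prod Z)) : C.comp c T ∈ J.J (V.prod Z) := by
  rw [comp_eq_extR, TheoryData.extR]
  exact J.push_mem _ (J.mul_mem _ (J.pull_mem _ hc))

lemma comp_mem_right (J : TensorIdeal C) (x : C.A (V.prod Q)) {c : C.A (Q.prod Z)}
    (hc : c ∈ J.J (Q.prod Z)) : C.comp x c ∈ J.J (V.prod Z) := by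
  rw [comp_eq_extR, TheoryData.extR]
  refine J.push_mem _ ?_
  rw [C.mul_comm]
  exact J.mul_mem _ (J.pull_mem _ hc)

lemma io_mem (J : TensorIdeal C) {y : C.A P} (hy : y ∈ J.J P) (Q : 𝒱.Obj) :
    io C Q y ∈ J.J (Q.prod (Q.prod P)) := J.push_mem _ (J.pull_mem _ hy)

/-- The image of the ideal under the composition with `T`. -/
noncomputable abbrev imJ (J : TensorIdeal C) (V : 𝒱.Obj) (T : C.A (Q.prod Z)) :
    Submodule W.K (C.A (V.prod Z)) := (J.J (V.prod Q)).map (cR C V T)

lemma rank_tensJ (J : TensorIdeal C) (T : C.A (Q.prod Q)) :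
    finrank W.K (imJ J (V.prod P) T) =
      finrank W.K (imJ J V (TH133.tens C.toTheoryData T (dg C.toTheoryData P))) := by
  have h1 : imJ J (V.prod P) T =
      (imJ J V (TH133.tens C.toTheoryData T (dg C.toTheoryData P))).map
        (phi C V P Q).toLinearMap := by
    ext x
    simp only [imJ, Submodule.mem_map]
    constructor
    · rintro ⟨c, hc, rfl⟩
      obtain ⟨c, rfl⟩ := (phi C V P Q).surjective c
      have hc' : c ∈ J.J (V.prod (Q.prod P)) := by
        have h2 : C.pull (bt' V P Q) (C.pull (bt V P Q) c) = c := by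
          rw [← TheoryData.pull_comp, bt'_bt, TheoryData.pull_id]
        rw [← h2]
        exact J.pull_mem _ hc
      exact ⟨_, ⟨c, hc', rfl⟩, nat C T c⟩
    · rintro ⟨_, ⟨c, hc, rfl⟩, rfl⟩
      exact ⟨phi C V P Q c, J.pull_mem _ hc, (nat C T c).symm⟩
  rw [h1]
  exact LinearEquiv.finrank_map_eq (phi C V P Q) _

/-- rank and nullity on a subspace -/
lemma finrank_map_add {K M : Type*} [Field K] [AddCommGroup M] [Module K M]
    (φ : M →ₗ[K] M) (R : Submodule K M) [Module.Finite K R] {S : Submodule K M} (hS : S ≤ R)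
    (hS' : S ≤ LinearMap.ker φ) : finrank K S + finrank K (R.map φ) ≤ finrank K R := by
  have h1 := LinearMap.finrank_range_add_finrank_ker (φ.domRestrict R)
  rw [LinearMap.range_domRestrict] at h1
  have h2 : finrank K S ≤ finrank K (LinearMap.ker (φ.domRestrict R)) := by
    have h3 : S.comap R.subtype ≤ LinearMap.ker (φ.domRestrict R) := by
      intro x hx
      exact hS' hx
    have h4 : finrank K (S.comap R.subtype) = finrank K S :=
      (Submodule.comapSubtypeEquivOfLe hS).finrank_eq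
    rw [← h4]
    exact Submodule.finrank_mono h3
  omega

/-- One slot. -/
theorem slotJ (J : TensorIdeal C) {y : C.A P} (hyJ : y ∈ J.J P) (hy : y ≠ 0)
    {Γ : C.A (P.prod P)} (hΓy : C.act Γ y = y) {T : C.A (Q.prod Q)}
    (hT : C.cl _ T = C.cl _ (dg C.toTheoryData Q)) (V : 𝒱.Obj)
    [hfin : Module.Finite W.K (J.J (V.prod (Q.prod P)))] :
    C.S.a (V.prod Q) + finrank W.K (imJ J V (TH133.tens C.toTheoryData T
      (dg C.toTheoryData P - Γ))) ≤
        finrank W.K (imJ J V (TH133.tens C.toTheoryData T (dg C.toTheoryData P))) := by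
  set D := dg C.toTheoryData P with hD
  set DQ := dg C.toTheoryData Q with hDQ
  let Λ : C.A (V.prod Q) →ₗ[W.K] C.A (V.prod (Q.prod P)) := cR C V (io C Q y) ∘ₗ cR C V T
  let B : C.A (V.prod Q) →ₗ[W.K] (C.S.C (V.prod Q) →ₗ[W.K] W.K) :=
    C.S.F (V.prod Q) 1 ∘ₗ (C.cl (V.prod Q)).toLinearMap.rangeRestrict
  have h1 : LinearMap.ker Λ ≤ LinearMap.ker B := by
    intro x hx
    rw [LinearMap.mem_ker] at hx ⊢
    have h2 := num_of_io C hy (x := C.comp x T) hx
    apply LinearMap.ext
    rintro ⟨_, ⟨w, rfl⟩⟩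
    have h3 := h2 w
    rw [map_mul, cl_comp_eq C hT] at h3
    exact h3
  have h3 : LinearMap.range B = LinearMap.range (C.S.F (V.prod Q) 1) := by
    apply LinearMap.range_comp_of_range_eq_top
    exact LinearMap.range_rangeRestrict _
  have h4 : C.S.a (V.prod Q) = finrank W.K (LinearMap.range B) := by rw [h3]; rfl
  -- the operator
  let φ : C.A (V.prod (Q.prod P)) →ₗ[W.K] C.A (V.prod (Q.prod P)) :=
    cR C V (TH133.tens C.toTheoryData DQ (D - Γ))
  have hfR : Module.Finite W.K (imJ J V (TH133.tens C.toTheoryData T D)) := by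
    rw [imJ]
    infer_instance
  have hmap : (imJ J V (TH133.tens C.toTheoryData T D)).map φ =
      imJ J V (TH133.tens C.toTheoryData T (D - Γ)) := by
    rw [imJ, imJ, ← Submodule.map_comp]
    congr 1
    apply LinearMap.ext
    intro x
    change C.comp (C.comp x _) _ = C.comp x _
    rw [comp_assoc, TH133.tens_comp C.toTheoryData C.mul_comm, hDQ, comp_dg, hD, dg_comp]
  have hΛR : LinearMap.range Λ ≤ imJ J V (TH133.tens C.toTheoryData T D) := by
    rintro _ ⟨x, rfl⟩
    refine ⟨C.comp x (io C Q y), comp_mem_right J x (io_mem J hyJ Q), ?_⟩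
    change C.comp (C.comp x (io C Q y)) (TH133.tens C.toTheoryData T D) =
      C.comp (C.comp x T) (io C Q y)
    rw [comp_assoc, io, slot C T (e := D) (by rw [hD, act_dg]), comp_assoc]
  have hΛφ : LinearMap.range Λ ≤ LinearMap.ker φ := by
    rintro _ ⟨x, rfl⟩
    rw [LinearMap.mem_ker]
    change C.comp (C.comp (C.comp x T) (io C Q y)) (TH133.tens C.toTheoryData DQ (D - Γ)) = 0
    have h5 : C.act (D - Γ) y = 0 := by
      rw [C.act_sub, hΓy, hD, act_dg, sub_self]
    have e1 : C.comp (io C Q y) (TH133.tens C.toTheoryData DQ D) = io C Q y := by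
      rw [io, slot C DQ (e := D) (by rw [hD, act_dg]), hDQ, dg_comp]
    have e2 : C.comp (io C Q y) (TH133.tens C.toTheoryData DQ Γ) = io C Q y := by
      rw [io, slot C DQ hΓy, hDQ, dg_comp]
    have e3 : TH133.tens C.toTheoryData DQ (D - Γ) =
        TH133.tens C.toTheoryData DQ D - TH133.tens C.toTheoryData DQ Γ := by
      rw [TH133.tens, TH133.tens, TH133.tens, map_sub, mul_sub]
    rw [comp_assoc, e3, comp_sub, e1, e2, sub_self, comp_zero]
  have hfΛ : Module.Finite W.K (LinearMap.range Λ) := Submodule.finiteDimensional_of_le hΛR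
  have h5 := finrank_map_add φ (imJ J V (TH133.tens C.toTheoryData T D)) hΛR hΛφ
  rw [hmap] at h5
  have h6 := rank_le_of_ker h1
  rw [h4]
  omega

/-- The count. -/
theorem claimJ (J : TensorIdeal C) {y : C.A P} (hyJ : y ∈ J.J P) (hy : y ≠ 0)
    {Γ : C.A (P.prod P)} (hΓ : C.cl _ Γ = 0) (hΓy : C.act Γ y = y) (k : ℕ) :
    ∀ (Q : 𝒱.Obj) (T : C.A (Q.prod Q)),
      C.cl _ T = C.cl _ (dg C.toTheoryData Q) →
      Module.Finite W.K (J.J ((pw P (k + 1)).prod Q)) →
      (k + 1) * C.S.a ((pw P k).prod Q) ≤ finrank W.K (imJ J (pw P (k + 1)) T) := by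
  have hclD : C.cl _ (dg C.toTheoryData P - Γ) = C.cl _ (dg C.toTheoryData P) := by
    rw [map_sub, hΓ, sub_zero]
  have hfe : ∀ (V Q : 𝒱.Obj), Module.Finite W.K (J.J ((V.prod P).prod Q)) →
      Module.Finite W.K (J.J (V.prod (Q.prod P))) := by
    intro V Q hf
    refine Module.Finite.of_injective ((C.pull (bt V P Q)).toLinearMap.restrict
      (p := J.J (V.prod (Q.prod P))) (q := J.J ((V.prod P).prod Q)) fun x hx => J.pull_mem _ hx) ?_
    intro a b hab
    exact Subtype.ext ((phi C V P Q).injective (congrArg Subtype.val hab))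
  induction k with
  | zero =>
    intro Q T hT hfin
    have hf : Module.Finite W.K (J.J ((pw P 0).prod (Q.prod P))) := hfe (pw P 0) Q hfin
    have h1 := slotJ J hyJ hy hΓy hT (pw P 0)
    have h2 : finrank W.K (imJ J (pw P (0 + 1)) T) = _ :=
      rank_tensJ J (V := pw P 0) (P := P) T
    rw [h2, Nat.zero_add, one_mul]
    omega
  | succ k ih =>
    intro Q T hT hfin
    have hf : Module.Finite W.K (J.J ((pw P (k + 1)).prod (Q.prod P))) :=
      hfe (pw P (k + 1)) Q hfin
    have h1 := slotJ J hyJ hy hΓy hT (pw P (k + 1))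
    have h2 : finrank W.K (imJ J (pw P (k + 1 + 1)) T) = _ :=
      rank_tensJ J (V := pw P (k + 1)) (P := P) T
    have h3 := ih (Q.prod P) (TH133.tens C.toTheoryData T (dg C.toTheoryData P - Γ))
      (cl_tens C hT hclD) hf
    have h4 : C.S.a ((pw P (k + 1)).prod Q) = C.S.a ((pw P k).prod (Q.prod P)) :=
      Sys.a_iso C.S (btI (pw P k) P Q)
    rw [← h4] at h3
    rw [h2]
    calc (k + 1 + 1) * C.S.a ((pw P (k + 1)).prod Q) =
        C.S.a ((pw P (k + 1)).prod Q) + (k + 1) * C.S.a ((pw P (k + 1)).prod Q) := by ring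
      _ ≤ _ := (Nat.add_le_add_left h3 _).trans h1

/-- **Phantoms.** A nonzero class of the ideal fixed by a homologically trivial correspondence. -/
theorem phantomJ (J : TensorIdeal C) {y : C.A P} (hyJ : y ∈ J.J P) (hy : y ≠ 0)
    {Γ : C.A (P.prod P)} (hΓ : C.cl _ Γ = 0) (hΓy : C.act Γ y = y) (k : ℕ) (Z : 𝒱.Obj)
    (hfin : Module.Finite W.K (J.J ((pw P (k + 1)).prod Z))) :
    (k + 1) * C.S.a ((pw P k).prod Z) ≤ finrank W.K (J.J ((pw P (k + 1)).prod Z)) := by
  refine (claimJ J hyJ hy hΓ hΓy k Z (dg C.toTheoryData Z) rfl hfin).trans ?_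
  refine Submodule.finrank_mono ?_
  rintro _ ⟨c, hc, rfl⟩
  exact comp_mem_left J hc _

/-- Isomorphic varieties have isomorphic ideals. -/
noncomputable def idealEquiv (J : TensorIdeal C) (θ : Y ≅ Z) : J.J Z ≃ₗ[W.K] J.J Y :=
  LinearEquiv.ofLinearMap
    ((C.pull θ.hom).toLinearMap.restrict (p := J.J Z) (q := J.J Y) fun x hx => J.pull_mem _ hx)
    ((C.pull θ.inv).toLinearMap.restrict (p := J.J Y) (q := J.J Z) fun x hx => J.pull_mem _ hx)
    (by
      ext x
      change C.pull θ.hom (C.pull θ.inv x) = x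
      rw [← TheoryData.pull_comp, θ.hom_inv_id, TheoryData.pull_id])
    (by
      ext x
      change C.pull θ.inv (C.pull θ.hom x) = x
      rw [← TheoryData.pull_comp, θ.inv_hom_id, TheoryData.pull_id])

/-- Phantoms in the ideal make the ratios tend to infinity. -/
theorem phantom_infJ (J : TensorIdeal C) (hfin : ∀ n, Module.Finite W.K (J.J (pw X n)))
    (hf : ¬ NoFixG (fun n => J.J (pw X n))) : Inf C X (fun n => J.J (pw X n)) := by
  rw [NoFixG] at hf
  push Not at hf
  obtain ⟨m, Γ, y, hyJ, hΓ, hΓy, hy⟩ := hf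
  intro N
  set P := pw X m with hP
  obtain ⟨B, hB⟩ := numRank_add_le C X m
  set k := N * B with hk
  rw [eventually_atTop]
  refine ⟨((k + 1) * (m + 1) + m) + 2, fun n' hn' => ?_⟩
  obtain ⟨n, rfl⟩ : ∃ n, n' = ((k + 1) * (m + 1) + m) + n + 1 :=
    ⟨n' - ((k + 1) * (m + 1) + m) - 1, by omega⟩
  have hn : 1 ≤ n := by omega
  obtain ⟨θ⟩ := nonempty_pwpw X m k
  obtain ⟨θ'⟩ := nonempty_pwpw X m (k + 1)
  let φ : (pw P k).prod (pw X n) ≅ pw X ((k * (m + 1) + m) + n + 1) :=
    prodCongr θ (Iso.refl _) ≪≫ pwAdd X _ n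
  let φ' : (pw P (k + 1)).prod (pw X n) ≅ pw X (((k + 1) * (m + 1) + m) + n + 1) :=
    prodCongr θ' (Iso.refl _) ≪≫ pwAdd X _ n
  have hf' : Module.Finite W.K (J.J ((pw P (k + 1)).prod (pw X n))) := by
    have := hfin (((k + 1) * (m + 1) + m) + n + 1)
    exact Module.Finite.equiv (idealEquiv J φ')
  have h4 := phantomJ J hyJ hy hΓ hΓy k (pw X n) hf'
  rw [C.S.a_iso φ, ← (idealEquiv J φ').finrank_eq] at h4
  have h5 := hB ((k * (m + 1) + m) + n + 1) (by omega)
  rw [numRank_eq, numRank_eq] at h5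
  have h6 : m + ((k * (m + 1) + m) + n + 1) + 1 = ((k + 1) * (m + 1) + m) + n + 1 := by ring
  rw [h6] at h5
  calc N * C.S.a (pw X (((k + 1) * (m + 1) + m) + n + 1))
      ≤ N * (B * C.S.a (pw X ((k * (m + 1) + m) + n + 1))) := Nat.mul_le_mul_left _ h5
    _ = k * C.S.a (pw X ((k * (m + 1) + m) + n + 1)) := by rw [hk]; ring
    _ ≤ (k + 1) * C.S.a (pw X ((k * (m + 1) + m) + n + 1)) :=
        Nat.mul_le_mul_right _ (Nat.le_succ _)
    _ ≤ _ := h4

end Pool.Agent.J6H25.AJ
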