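import Pool.Agent.J6H25.AJ.Amp
import Pool.Agent.J6H25.AJ.Law
import Pool.Agent.J6H25.AJ.Phantom

/-!
# The index law for tensor ideals
-/

set_option autoImplicit false

open CategoryTheory AlgebraicGeometry
open scoped ENNReal

universe u v w

namespace Pool.Agent.J6H25.AJ

open Module Filter Topology
open Pool.Agent.H914 Pool.Agent.H914.VarClass Pool.Agent.H914.VarClass.Obj
  Pool.Agent.H914.WeilCohomology Pool.Agent.W492.BB Pool.Agent.W550.Corr Pool.Agent.Y133.Half
  Pool.Agent.N132.IX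

variable {k : Type u} [Field k] {𝒱 : VarClass k} {ops : CycleOps 𝒱}
  {W : WeilCohomology.{u, v} ops} {X Y Z : 𝒱.Obj} {C : CycleTheory.{u, v, w} W}

/-- The data of the main case from the limit of the ratios. -/
theorem main_case (C : CycleTheory.{u, v, w} W) (X : 𝒱.Obj) {d : ℕ}
    (h : Tendsto (fun n => C.ratio (pw X n)) atTop (𝓝 (d : ℝ≥0∞))) :
    Main C X ∧ Lim C X (fun _ => ⊤) d ∧ NoFix C X := by
  rcases alternative C X with h1 | ⟨N, hM, hL, hf⟩
  · exfalso
    have hr0 : ∀ n, (C.numRank (pw X n) : ℝ≥0∞) ≠ 0 := fun n => by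
      rw [numRank_eq]
      exact_mod_cast (a_pos C _).ne'
    have h2 : ∀ᶠ n in atTop, C.ratio (pw X n) < d + 1 := by
      apply h.eventually (gt_mem_nhds _)
      exact_mod_cast Nat.lt_succ_self d
    obtain ⟨n, hn1, hn2⟩ := ((h1 (d + 1)).and h2).exists
    have h3 : (((d + 1) * C.numRank (pw X n) : ℕ) : ℕ∞).toENNReal ≤
        (C.dim (pw X n)).toENNReal := ENat.toENNReal_le.2 hn1
    rw [ENat.toENNReal_coe] at h3
    have h4 : ((d : ℝ≥0∞) + 1) ≤ C.ratio (pw X n) := by
      rw [CycleTheory.ratio, ENNReal.le_div_iff_mul_le (Or.inl (hr0 n))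
        (Or.inl (ENNReal.natCast_ne_top _))]
      exact_mod_cast h3
    exact absurd hn2 (not_lt.2 h4)
  · have hN : N = d := by
      have hdim : ∀ n, C.dim (pw X n) = (finrank W.K (C.A (pw X n)) : ℕ∞) := fun n => by
        have := hM.fin n
        exact dim_eq
      have h2 : Tendsto (fun n => ENNReal.ofReal ((finrank W.K (C.A (pw X n)) : ℝ) /
          C.S.a (pw X n))) atTop (𝓝 (ENNReal.ofReal N)) := by
        refine (ENNReal.continuous_ofReal.tendsto _).comp ?_
        refine Tendsto.congr (fun n => ?_) hL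
        rw [finrank_top]
      rw [ENNReal.ofReal_natCast] at h2
      have h3 : Tendsto (fun n => C.ratio (pw X n)) atTop (𝓝 (N : ℝ≥0∞)) := by
        refine h2.congr fun n => ?_
        have hp : (0 : ℝ) < C.S.a (pw X n) := by exact_mod_cast hM.pos n
        rw [CycleTheory.ratio, hdim n, numRank_eq, ENat.toENNReal_coe,
          ENNReal.ofReal_div_of_pos hp, ENNReal.ofReal_natCast, ENNReal.ofReal_natCast]
      exact_mod_cast tendsto_nhds_unique h3 h
    subst hN
    exact ⟨hM, hL, hf⟩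

/-- **The index law for tensor ideals, if the index of the theory is finite.** -/
theorem index_ideals (C : CycleTheory.{u, v, w} W) (X : 𝒱.Obj) :
    Tendsto (fun n => C.ratio (pw X n)) atTop (𝓝 ⊤) ∨
    ∃ N : ℕ, 1 ≤ N ∧ Tendsto (fun n => C.ratio (pw X n)) atTop (𝓝 N) ∧
      (∀ n, Module.Finite W.K (C.A (pw X n))) ∧
      ∀ J : TensorIdeal C, ∃ i < N,
        Tendsto (fun n => (finrank W.K (J.J (pw X n)) : ℝ) / C.numRank (pw X n)) atTop
          (𝓝 (i : ℝ)) ∧
        Tendsto (fun n => ((finrank W.K (C.num (pw X n)) : ℝ) - finrank W.K (J.J (pw X n))) /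
          C.numRank (pw X n)) atTop (𝓝 ((N : ℝ) - 1 - i)) ∧
        (i = 0 ↔ ∀ Y, Dominates C X Y → J.J Y = ⊥) := by
  obtain ⟨N, h0, h1, -, -⟩ := index_law C X
  induction N using ENat.recTopCoe with
  | top => left; simpa using h1
  | coe d =>
    right
    have h1' : Tendsto (fun n => C.ratio (pw X n)) atTop (𝓝 (d : ℝ≥0∞)) := by simpa using h1
    obtain ⟨hM, hL, hf⟩ := main_case C X h1'
    have hd : d ≠ 0 := by exact_mod_cast h0
    refine ⟨d, by omega, h1', hM.fin, fun J => ?_⟩
    have hfin := hM.fin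
    have hp : ∀ n, (0 : ℝ) < C.numRank (pw X n) := fun n => by
      rw [numRank_eq]
      exact_mod_cast hM.pos n
    have hnum : Tendsto (fun n => (finrank W.K (C.num (pw X n)) : ℝ) / C.numRank (pw X n)) atTop
        (𝓝 ((d : ℝ) - 1)) := by
      have h2 : Tendsto (fun n => (finrank W.K (⊤ : Submodule W.K (C.A (pw X n))) : ℝ) /
          C.S.a (pw X n) - 1) atTop (𝓝 ((d : ℝ) - 1)) := hL.sub_const 1
      refine h2.congr fun n => ?_
      have h3 := Submodule.finrank_quotient_add_finrank (C.num (pw X n))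
      have h4 : (C.numRank (pw X n) : ℝ) + finrank W.K (C.num (pw X n)) =
          finrank W.K (C.A (pw X n)) := by
        exact_mod_cast h3
      rw [finrank_top, ← numRank_eq, ← h4, add_div, div_self (hp n).ne']
      ring
    have hle : ∀ n, J.J (pw X n) ≤ C.num (pw X n) := fun n y hy =>
      J.numTriv hy
    have hB : Base C X := ⟨hM.num, hM.growth, hM.pos⟩
    obtain ⟨i, hi, hi0⟩ : ∃ i : ℕ, Lim C X (fun n => J.J (pw X n)) i ∧
        (i = 0 → ∀ n, J.J (pw X n) = ⊥) := by
      rcases lawG hB (stab_ideal J X) (fun n => inferInstance)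
        (fun m Γ y _ hΓ h => hf m Γ y hΓ h) with h | h
      · exact h
      · exfalso
        have h2 : ∀ᶠ q in atTop, (finrank W.K ((⊤ : Submodule W.K (C.A (pw X q)))) : ℝ) /
          C.S.a (pw X q) < d + 1 := hL.eventually (gt_mem_nhds (by linarith))
        obtain ⟨q, hq1, hq2⟩ := ((h (d + 1)).and h2).exists
        have hp' : (0 : ℝ) < C.S.a (pw X q) := by exact_mod_cast hM.pos q
        rw [div_lt_iff₀ hp', finrank_top] at hq2
        have h3 : finrank W.K (J.J (pw X q)) ≤ finrank W.K (C.A (pw X q)) :=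
          Submodule.finrank_le _
        have h4 : (d + 1) * C.S.a (pw X q) ≤ finrank W.K (C.A (pw X q)) := hq1.trans h3
        have h5 : ((d : ℝ) + 1) * C.S.a (pw X q) ≤ finrank W.K (C.A (pw X q)) := by
          exact_mod_cast h4
        linarith
    have hJ : Tendsto (fun n => (finrank W.K (J.J (pw X n)) : ℝ) / C.numRank (pw X n)) atTop
        (𝓝 (i : ℝ)) := by
      refine hi.congr fun n => ?_
      rw [numRank_eq]
    have hlt : i < d := by
      have h2 : (i : ℝ) ≤ (d : ℝ) - 1 := by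
        refine le_of_tendsto_of_tendsto' hJ hnum fun n => ?_
        have h3 := Submodule.finrank_mono (hle n)
        gcongr
      have h3 : (i : ℝ) + 1 ≤ d := by linarith
      have h4 : i + 1 ≤ d := by exact_mod_cast h3
      omega
    refine ⟨i, hlt, hJ, ?_, fun h => ?_, fun h => ?_⟩
    · refine (hnum.sub hJ).congr fun n => ?_
      rw [sub_div]
    · exact (all_iff J).1 (hi0 h)
    · have h2 := (all_iff (X := X) J).2 h
      have h3 : Tendsto (fun n => (finrank W.K (J.J (pw X n)) : ℝ) / C.numRank (pw X n)) atTop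
          (𝓝 (0 : ℝ)) := by
        refine tendsto_const_nhds.congr fun n => ?_
        rw [h2 n, finrank_bot, Nat.cast_zero, zero_div]
      exact_mod_cast tendsto_nhds_unique hJ h3

/-- **Nonzero ideals are not small on the powers of `X`.** -/
theorem small_ideals (J : TensorIdeal C) (X : 𝒱.Obj) :
    (∀ Y, Dominates C X Y → J.J Y = ⊥) ∨
      ∃ c : ℕ, ∀ᶠ n in atTop, (C.numRank (pw X n) : ℕ∞) ≤ c * J.dim (pw X n) := by
  by_cases h : ∀ n, J.J (pw X n) = ⊥
  · exact Or.inl ((all_iff J).1 h)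
  · push Not at h
    obtain ⟨m, hm⟩ := h
    exact Or.inr (not_small J hm)

/-- The conditions on the numerical classes follow from `hom = num` on the powers of `X`. -/
theorem base_of (hD : ∀ (n : ℕ) (x : C.A (pw X n)), CycleTheory.NumTriv x → C.cl _ x = 0) :
    Base C X := by
  have hN : ∀ n, C.S.Num (pw X n) = ⊥ := by
    intro n
    rw [eq_bot_iff]
    intro c hc
    obtain ⟨x, rfl⟩ := hc.1
    rw [Submodule.mem_bot]
    exact hD n x (numTriv_iff.2 hc)
  obtain ⟨l, hl, hl1⟩ := exists_lam C X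
  have h1 : (1 : W.H X) ≠ 0 := one_ne_zero_of (ne_zero_of_tr hl1)
  have hX : 0 < finrank W.K (W.H X) := by
    have : Nontrivial (W.H X) := ⟨⟨1, 0, h1⟩⟩
    exact Module.finrank_pos
  have hpos : ∀ n, 0 < C.S.al X n := fun n => a_pos C _
  have haC : ∀ n, C.S.a (pw X n) = finrank W.K (C.S.C (pw X n)) := by
    intro n
    have h2 := C.S.a_add_num (pw X n)
    rw [hN n, finrank_bot, add_zero] at h2
    exact h2
  have hB : ∀ c : ℝ, 0 ≤ c → c < (finrank W.K (W.H X) : ℝ) ^ 2 →
      ∃ l₀, ∀ l ≥ l₀, c * C.S.al X l ≤ C.S.al X (l + 1) := by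
    rcases ratio_dichotomy hpos (C.S.al_convex X) ((finrank W.K (W.H X) : ℝ) ^ 2) with
      ⟨c, hc, hcB, h⟩ | hB
    · exfalso
      obtain ⟨n₀, hn₀⟩ := Sys.small_of (S := C.S) (T := C.S) hc hcB h hX
        (ε := 1 / 2) (by positivity)
      have h2 := hn₀ n₀ le_rfl
      have h3 : (0 : ℝ) < C.S.a (pw X n₀) := by exact_mod_cast a_pos C _
      rw [← haC] at h2
      linarith
    · exact hB
  exact ⟨hN, ⟨hB, l, hl, hl1⟩, fun n => a_pos C _⟩

lemma not_finite_succ_ideal (J : TensorIdeal C) {n : ℕ}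
    (h : ¬ Module.Finite W.K (J.J (pw X n))) : ¬ Module.Finite W.K (J.J (pw X (n + 1))) := by
  intro h2
  apply h
  have h3 : Module.Finite W.K (J.J ((pw X n).prod X)) := h2
  refine Module.Finite.of_injective ((C.pull (fst (pw X n) X)).toLinearMap.restrict
    (p := J.J (pw X n)) (q := J.J ((pw X n).prod X)) fun x hx => J.pull_mem _ hx) ?_
  intro a b hab
  exact Subtype.ext (pull_fst_injective C (pw X n) X (congrArg Subtype.val hab))

lemma dim_eq_ideal (J : TensorIdeal C) [Module.Finite W.K (J.J Z)] :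
    J.dim Z = (finrank W.K (J.J Z) : ℕ∞) := by
  rw [TensorIdeal.dim, ← finrank_eq_rank, Cardinal.toENat_nat]

lemma dim_top_ideal (J : TensorIdeal C) (h : ¬ Module.Finite W.K (J.J Z)) : J.dim Z = ⊤ := by
  rw [TensorIdeal.dim, Cardinal.toENat_eq_top]
  by_contra h2
  exact h (Module.rank_lt_aleph0_iff.1 (not_le.1 h2))

/-- **The index law for tensor ideals**, without assumptions on the index of the theory. -/
theorem index_strong (J : TensorIdeal C) (X : 𝒱.Obj)
    (hD : ∀ (n : ℕ) (x : C.A (pw X n)), CycleTheory.NumTriv x → C.cl _ x = 0) :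
    ∃ i : ℕ∞, Tendsto (fun n => (J.dim (pw X n) : ℝ≥0∞) / (C.numRank (pw X n) : ℝ≥0∞)) atTop
      (𝓝 (i : ℝ≥0∞)) ∧ (i = 0 ↔ ∀ Y, Dominates C X Y → J.J Y = ⊥) ∧
      ∀ d : ℕ, i = d → (∀ n, Module.Finite W.K (J.J (pw X n))) ∧
        NoFixG (fun n => J.J (pw X n)) ∧ Lim C X (fun n => J.J (pw X n)) d := by
  have hB := base_of hD
  have hr0 : ∀ n, (C.numRank (pw X n) : ℝ≥0∞) ≠ 0 := fun n => by
    rw [numRank_eq]
    exact_mod_cast (a_pos C _).ne'
  have hr1 : ∀ n, (C.numRank (pw X n) : ℝ≥0∞) ≠ ⊤ := fun n => ENNReal.natCast_ne_top _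
  by_cases hfin : ∀ n, Module.Finite W.K (J.J (pw X n))
  · have hrat : ∀ n, (J.dim (pw X n) : ℝ≥0∞) / (C.numRank (pw X n) : ℝ≥0∞) =
        ENNReal.ofReal ((finrank W.K (J.J (pw X n)) : ℝ) / C.S.a (pw X n)) := by
      intro n
      have := hfin n
      have hp : (0 : ℝ) < C.S.a (pw X n) := by exact_mod_cast hB.pos n
      rw [dim_eq_ideal, numRank_eq, ENat.toENNReal_coe, ENNReal.ofReal_div_of_pos hp,
        ENNReal.ofReal_natCast, ENNReal.ofReal_natCast]
    have hlaw : (∃ i : ℕ, Lim C X (fun n => J.J (pw X n)) i ∧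
        (i = 0 → ∀ n, J.J (pw X n) = ⊥) ∧ NoFixG (fun n => J.J (pw X n))) ∨
          Inf C X (fun n => J.J (pw X n)) := by
      by_cases hf : NoFixG (fun n => J.J (pw X n))
      · rcases lawG hB (stab_ideal J X) hfin hf with ⟨i, h1, h2⟩ | h
        · exact Or.inl ⟨i, h1, h2, hf⟩
        · exact Or.inr h
      · exact Or.inr (phantom_infJ J hfin hf)
    rcases hlaw with ⟨i, hi, hi0, hf⟩ | h
    · refine ⟨i, ?_, ?_, fun d hd => ?_⟩
      · have h2 : Tendsto (fun n => ENNReal.ofReal ((finrank W.K (J.J (pw X n)) : ℝ) /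
            C.S.a (pw X n))) atTop (𝓝 (ENNReal.ofReal i)) :=
          (ENNReal.continuous_ofReal.tendsto _).comp hi
        rw [ENNReal.ofReal_natCast] at h2
        rw [ENat.toENNReal_coe]
        exact h2.congr fun n => (hrat n).symm
      · rw [← all_iff J]
        constructor
        · intro h
          exact hi0 (by exact_mod_cast h)
        · intro h
          have h3 : Tendsto (fun n => (finrank W.K (J.J (pw X n)) : ℝ) / C.S.a (pw X n)) atTop
              (𝓝 (0 : ℝ)) := by
            refine tendsto_const_nhds.congr fun n => ?_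
            rw [h n, finrank_bot, Nat.cast_zero, zero_div]
          have h4 : (i : ℝ) = 0 := tendsto_nhds_unique hi h3
          have h5 : i = 0 := by exact_mod_cast h4
          rw [h5]
          rfl
      · have hid : i = d := by exact_mod_cast hd
        subst hid
        exact ⟨hfin, hf, hi⟩
    · refine ⟨⊤, ?_, ?_, fun d hd => absurd hd (ENat.top_ne_coe d)⟩
      · rw [ENat.toENNReal_top]
        apply ENNReal.tendsto_nhds_top
        intro N
        filter_upwards [h (N + 1)] with n hn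
        have h2 : ((N + 1 : ℕ) : ℝ≥0∞) ≤ (J.dim (pw X n) : ℝ≥0∞) / (C.numRank (pw X n) : ℝ≥0∞) := by
          rw [ENNReal.le_div_iff_mul_le (Or.inl (hr0 n)) (Or.inl (hr1 n))]
          have := hfin n
          rw [dim_eq_ideal, ENat.toENNReal_coe, numRank_eq]
          exact_mod_cast hn
        refine lt_of_lt_of_le ?_ h2
        exact_mod_cast Nat.lt_succ_self N
      · refine ⟨fun h0 => absurd h0 (by simp), fun h0 => ?_⟩
        exfalso
        have h2 := (all_iff (X := X) J).2 h0
        obtain ⟨n, hn⟩ := (h 1).exists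
        have h5 : finrank W.K (J.J (pw X n)) = 0 := by
          rw [h2 n]
          exact finrank_bot _ _
        have h6 := hB.pos n
        have h7 : 1 * C.S.a (pw X n) ≤ finrank W.K (J.J (pw X n)) := hn
        omega
  · push Not at hfin
    obtain ⟨n₁, hn₁⟩ := hfin
    have hinf : ∀ n ≥ n₁, ¬ Module.Finite W.K (J.J (pw X n)) := by
      intro n hn
      induction n, hn using Nat.le_induction with
      | base => exact hn₁
      | succ n _ ih => exact not_finite_succ_ideal J ih
    refine ⟨⊤, ?_, ?_, fun d hd => absurd hd (ENat.top_ne_coe d)⟩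
    · rw [ENat.toENNReal_top]
      refine tendsto_const_nhds.congr' ?_
      filter_upwards [eventually_ge_atTop n₁] with n hn
      rw [dim_top_ideal J (hinf n hn), ENat.toENNReal_top, ENNReal.top_div_of_ne_top (hr1 n)]
    · refine ⟨fun h0 => absurd h0 (by simp), fun h0 => ?_⟩
      exfalso
      have h2 := (all_iff (X := X) J).2 h0
      apply hn₁
      rw [h2 n₁]
      infer_instance

/-- **The index law for tensor ideals**, without assumptions on the index of the theory. -/
theorem index_ideal (J : TensorIdeal C) (X : 𝒱.Obj)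
    (hD : ∀ (n : ℕ) (x : C.A (pw X n)), CycleTheory.NumTriv x → C.cl _ x = 0) :
    ∃ i : ℕ∞, Tendsto (fun n => (J.dim (pw X n) : ℝ≥0∞) / (C.numRank (pw X n) : ℝ≥0∞)) atTop
      (𝓝 (i : ℝ≥0∞)) ∧ (i = 0 ↔ ∀ Y, Dominates C X Y → J.J Y = ⊥) := by
  obtain ⟨i, h1, h2, -⟩ := index_strong J X hD
  exact ⟨i, h1, h2⟩

end Pool.Agent.J6H25.AJ
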