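import Pool.Agent.J6H25.AJ.SDefs
import Pool.Agent.J6H25.AJ.Final
import Pool.Agent.N132.IXS.Conv

/-!
# The index law for tensor ideals, final form
-/

set_option autoImplicit false

open CategoryTheory AlgebraicGeometry
open scoped ENNReal

universe u v w

namespace Pool.Agent.J6H25.AJS

open Module Filter Topology
open Pool.Agent.H914 Pool.Agent.H914.VarClass Pool.Agent.H914.VarClass.Obj Pool.Agent.W492.BB
  Pool.Agent.Y133.Half Pool.Agent.N132 Pool.Agent.N132.IXS

variable {k : Type u} [Field k] {𝒱 : VarClass k} {ops : CycleOps 𝒱}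
  {W : WeilCohomology.{u, v} ops} {C : CycleTheory.{u, v, w} W} {X Y Z : 𝒱.Obj}

/-- The other form of the structure. -/
noncomputable def convJ (I : Family C.toChowTheory) (h : I.IsTensorIdeal) :
    AJ.TensorIdeal (conv C) where
  J := fun Y => I.J Y
  pull_mem := fun {Y Z} f {z} hz => h.up_mem (Y := Y) (Z := Z) f z hz
  push_mem := fun {Y Z} f {y} hy => h.down_mem (Y := Y) (Z := Z) f y hy
  mul_mem := fun {Y} x {y} hy => h.mul_mem (Y := Y) x y hy
  numTriv := fun {Y y} hy => (numTriv_conv C).1 (h.numTriv (Y := Y) y hy)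

variable (J : Family C.toChowTheory) (hJ : J.IsTensorIdeal)

include hJ in
lemma ratio_conv' (Y : 𝒱.Obj) : J.ratio Y =
    ((convJ J hJ).dim Y : ℝ≥0∞) / ((conv C).numRank Y : ℝ≥0∞) := by
  rw [Family.ratio, numRank_conv]
  rfl

lemma vanishes_bot : J.Vanishes Y ↔ (convJ J hJ).J Y = ⊥ := by
  rw [Submodule.eq_bot_iff]
  rfl

lemma vanishes_iff : J.VanishesBelow X ↔
    ∀ Y, AJ.Dominates (conv C) X Y → (convJ J hJ).J Y = ⊥ :=
  ⟨fun h Y ⟨n, f, a, ha⟩ => (vanishes_bot J hJ).1 (h Y n f a ha),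
    fun h Y n f a ha => (vanishes_bot J hJ).2 (h Y ⟨n, f, a, ha⟩)⟩

include hJ in
lemma add_one_le_ratio (Y : 𝒱.Obj) : J.ratio Y + 1 ≤ C.ratio Y := by
  have hr0 : ((conv C).numRank Y : ℝ≥0∞) ≠ 0 := by
    rw [IX.numRank_eq]
    exact_mod_cast (IX.a_pos (conv C) _).ne'
  have hr1 : ((conv C).numRank Y : ℝ≥0∞) ≠ ⊤ := ENNReal.natCast_ne_top _
  rw [ratio_conv' J hJ, ratio_conv, IX.CycleTheory.ratio]
  rw [← ENNReal.div_self hr0 hr1, ENNReal.div_add_div_same]
  refine ENNReal.div_le_div_right ?_ _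
  have h2 : (convJ J hJ).J Y ≤ (conv C).num Y := fun y hy => (convJ J hJ).numTriv hy
  have hq := AJ.finite_num (conv C) Y
  have h3 := Submodule.rank_quotient_add_rank ((conv C).num Y)
  have h4 : (conv C).dim Y = ((conv C).numRank Y : ℕ∞) +
      Cardinal.toENat (Module.rank W.K ((conv C).num Y)) := by
    rw [IX.CycleTheory.dim, ← h3, map_add, IX.CycleTheory.numRank, ← finrank_eq_rank,
      Cardinal.toENat_nat]
  have h5 : (convJ J hJ).dim Y ≤ Cardinal.toENat (Module.rank W.K ((conv C).num Y)) :=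
    Cardinal.toENat.monotone' (Submodule.rank_mono h2)
  have h6 : (convJ J hJ).dim Y + ((conv C).numRank Y : ℕ∞) ≤ (conv C).dim Y := by
    rw [h4, add_comm]
    gcongr
  have h7 := ENat.toENNReal_le.2 h6
  rw [ENat.toENNReal_add, ENat.toENNReal_coe] at h7
  exact h7

/-- **The index law for tensor ideals.** -/
theorem final (C : CycleTheory.{u, v, w} W) (J : Family C.toChowTheory) (hJ : J.IsTensorIdeal) :
    (∀ Y Z, J.Vanishes Y ∨ C.numRank Z ≤ J.dim (Y.prod Z)) ∧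
    ∀ X, (J.VanishesBelow X ∨ J.IsLarge X) ∧
      ∃ N : ℕ∞, Tendsto (fun n => C.ratio (pw X n)) atTop (𝓝 N) ∧ (N ≠ ⊤ → HomEqNum C X) ∧
        (HomEqNum C X → J.IndexLaw X N) := by
  refine ⟨fun Y Z => ?_, fun X => ⟨?_, ?_⟩⟩
  · rw [numRank_conv, vanishes_bot J hJ]
    exact or_iff_not_imp_left.2 fun h => AJ.amp_le (convJ J hJ) h Z
  · rw [vanishes_iff J hJ]
    rcases AJ.small_ideals (convJ J hJ) X with h | ⟨c, hc⟩
    · exact Or.inl h
    · refine Or.inr ⟨c, ?_⟩
      filter_upwards [hc] with n hn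
      rw [numRank_conv]
      exact hn
  · obtain ⟨-, N, h6, h7, h8, h9⟩ := index_final C X
    refine ⟨N, h7, fun hN => ?_, fun hD => ?_⟩
    · obtain ⟨d, rfl⟩ := ENat.ne_top_iff_exists.1 hN
      exact (h9 d rfl).2
    · obtain ⟨i, hi, hi0⟩ := AJ.index_ideal (convJ J hJ) X
        (fun n x hx => hD n x ((numTriv_conv C).2 hx))
      have hi' : Tendsto (fun n => J.ratio (pw X n)) atTop (𝓝 (i : ℝ≥0∞)) :=
        hi.congr fun n => (ratio_conv' J hJ _).symm
      refine ⟨i, ?_, hi', hi0.trans (vanishes_iff J hJ).symm⟩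
      have h1 : (i : ℝ≥0∞) + 1 ≤ (N : ℝ≥0∞) := by
        refine le_of_tendsto_of_tendsto' (hi'.add tendsto_const_nhds) h7 fun n => ?_
        exact add_one_le_ratio J hJ _
      have h2 : ((i + 1 : ℕ∞) : ℝ≥0∞) ≤ (N : ℝ≥0∞) := by
        rw [ENat.toENNReal_add, ENat.toENNReal_one]
        exact h1
      exact ENat.toENNReal_le.1 h2

end Pool.Agent.J6H25.AJS
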