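import Pool.Agent.N132.IXS.Defs

/-!
# Tensor ideals in a theory of cycles: definitions used in the statement
-/

open CategoryTheory AlgebraicGeometry Module Filter Topology
open scoped ENNReal

universe u v w

namespace Pool.Agent.J6H25.AJS

open Pool.Agent.H914 Pool.Agent.H914.VarClass Pool.Agent.H914.VarClass.Obj Pool.Agent.W492.BB
  Pool.Agent.Y133.Half Pool.Agent.N132.IXS

variable {k : Type u} [Field k] {𝒱 : VarClass k} {K : Type v} [Field K]

/-- A family `J` of subspaces `J(Y)` of the spaces `A(Y)`, for all varieties `Y` of the class. -/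
structure Family (C : ChowTheory.{u, v, w} 𝒱 K) where
  /-- the subspace `J(Y)` -/
  J : ∀ Y, Submodule K (C.A Y)

namespace Family

variable {C : ChowTheory.{u, v, w} 𝒱 K} (J : Family C)

/-- The class `y` on `Y` lies in `J(Y)`. -/
def Mem {Y : 𝒱.Obj} (y : C.A Y) : Prop := y ∈ J.J Y

/-- `J` is a tensor ideal of numerically trivial classes: the subspaces `J(Y)` consist of
numerically trivial classes and are stable under pull-backs, push-forwards and products with
arbitrary classes. Example: `A` the Chow groups with rational coefficients of the smooth projective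
varieties over a number field, and `J(Y)` the kernel of the `p`-adic étale Abel-Jacobi map of `Y`
(in all codimensions). -/
structure IsTensorIdeal : Prop where
  up_mem : ∀ {Y Z : 𝒱.Obj} (f : Y ⟶ Z) (z : C.A Z), J.Mem z → J.Mem (C.up f z)
  down_mem : ∀ {Y Z : 𝒱.Obj} (f : Y ⟶ Z) (y : C.A Y), J.Mem y → J.Mem (C.down f y)
  mul_mem : ∀ {Y : 𝒱.Obj} (x y : C.A Y), J.Mem y → J.Mem (C.mul x y)
  numTriv : ∀ {Y : 𝒱.Obj} (y : C.A Y), J.Mem y → ChowTheory.NumTriv y

/-- The dimension of `J(Y)`, a natural number or infinity. -/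
noncomputable def dim (Y : 𝒱.Obj) : ℕ∞ := Cardinal.toENat (Module.rank K (J.J Y))

/-- The ratio of the dimension of `J(Y)` to the dimension of `A(Y)` modulo numerical
equivalence. -/
noncomputable def ratio (Y : 𝒱.Obj) : ℝ≥0∞ := J.dim Y / C.numRank Y

/-- `J(Y) = 0`. -/
def Vanishes (Y : 𝒱.Obj) : Prop := ∀ y : C.A Y, J.Mem y → y = 0

/-- `J(Y) = 0` for all `Y` dominated by a power of `X`, that is, all `Y` with a morphism `f` from a
power of `X` to `Y` and a class `a` with `f_* a = 1` (if `A` is the theory of the Chow groups: all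
`Y` with a surjective morphism from a power of `X`). -/
def VanishesBelow (X : 𝒱.Obj) : Prop :=
  ∀ (Y : 𝒱.Obj) (n : ℕ) (f : pw X n ⟶ Y) (a : C.A (pw X n)), C.down f a = 1 → J.Vanishes Y

/-- For some `c`, the dimension of `A(X^n)` modulo numerical equivalence is at most `c` times the
dimension of `J(X^n)`, for all large `n`. -/
def IsLarge (X : 𝒱.Obj) : Prop :=
  ∃ c : ℕ, ∀ᶠ n in atTop, C.numRank (pw X n) ≤ c * J.dim (pw X n)

/-- The ratios of the dimension of `J(X^n)` to the dimension of `A(X^n)` modulo numerical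
equivalence tend to an integer or infinity `i` with `i + 1 ≤ N`, and `i = 0` if and only if `J`
vanishes on all varieties dominated by powers of `X`. -/
def IndexLaw (X : 𝒱.Obj) (N : ℕ∞) : Prop :=
  ∃ i : ℕ∞, i + 1 ≤ N ∧ Tendsto (fun n => J.ratio (pw X n)) atTop (𝓝 i) ∧
    (i = 0 ↔ J.VanishesBelow X)

end Family

/-- Homological and numerical equivalence agree on the powers of `X`. -/
def HomEqNum {ops : CycleOps 𝒱} {W : WeilCohomology.{u, v} ops} (C : CycleTheory.{u, v, w} W)
    (X : 𝒱.Obj) : Prop :=
  ∀ n, ∀ x : C.A (pw X n), ChowTheory.NumTriv x → C.cl _ x = 0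

end Pool.Agent.J6H25.AJS
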